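import Pool.Agent.N463.MI.Stm

/-!
# Project MI (helper463), part C01m: the finite trigonometric sum near `θ = 0` (helper271)
-/

set_option autoImplicit false

open Finset

namespace Pool.Agent.N271.MI

open Pool.Agent.N463.MI

theorem alt (n : ℕ) : ∀ d : ℕ → ℝ, Antitone d → (∀ k, 0 ≤ d k) →
    0 ≤ ∑ j ∈ range n, (-1) ^ j * d j ∧ ∑ j ∈ range n, (-1) ^ j * d j ≤ d 0 := by
  induction n with
  | zero =>
    intro d _ h0
    rw [Finset.sum_range_zero]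
    exact ⟨le_rfl, h0 0⟩
  | succ n ih =>
    intro d hd h0
    obtain ⟨h1, h2⟩ := ih (fun j => d (j + 1)) (fun i j hij => hd (by omega)) (fun k => h0 _)
    have e : ∑ j ∈ range (n + 1), (-1) ^ j * d j = d 0 - ∑ j ∈ range n, (-1) ^ j * d (j + 1) := by
      rw [Finset.sum_range_succ']
      have e1 : ∑ j ∈ range n, (-1 : ℝ) ^ (j + 1) * d (j + 1) =
          - ∑ j ∈ range n, (-1) ^ j * d (j + 1) := by
        rw [← Finset.sum_neg_distrib]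
        refine Finset.sum_congr rfl fun j _ => ?_
        rw [pow_succ]
        ring
      rw [e1, pow_zero, one_mul]
      ring
    rw [e]
    have h3 : d (0 + 1) ≤ d 0 := hd (Nat.zero_le 1)
    constructor <;> linarith

/-- the terms of the alternating sums -/
noncomputable def dd (b : ℝ) (p j : ℕ) : ℝ := b ^ (j + 1) / ((j : ℝ) + 1) ^ p

theorem dd_nonneg {b : ℝ} (hb : 0 ≤ b) (p j : ℕ) : 0 ≤ dd b p j := by
  unfold dd
  positivity

theorem dd_anti {b : ℝ} (hb : 0 ≤ b) (hb1 : b ≤ 1) (p : ℕ) : Antitone (dd b p) := by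
  refine antitone_nat_of_succ_le fun j => ?_
  unfold dd
  apply div_le_div₀ (by positivity) _ (by positivity) _
  · rw [pow_succ]
    exact mul_le_of_le_one_right (by positivity) hb1
  · apply pow_le_pow_left₀ (by positivity)
    push_cast
    linarith

theorem alt_le {b : ℝ} (hb : 0 ≤ b) (hb1 : b ≤ 1) (p n : ℕ) :
    ∑ j ∈ range n, (-1) ^ j * dd b p j ≤ b := by
  have h := (alt n (dd b p) (dd_anti hb hb1 p) (dd_nonneg hb p)).2
  have e : dd b p 0 = b := by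
    unfold dd
    simp
  rwa [e] at h

/-- even partial sums are lower bounds -/
theorem alt_ge {b : ℝ} (hb : 0 ≤ b) (hb1 : b ≤ 1) (p k n : ℕ) :
    ∑ j ∈ range (2 * k), (-1) ^ j * dd b p j ≤ ∑ j ∈ range (2 * k + n), (-1) ^ j * dd b p j := by
  rw [Finset.sum_range_add]
  have h := (alt n (fun j => dd b p (2 * k + j))
    (fun i j hij => dd_anti hb hb1 p (by omega)) (fun j => dd_nonneg hb p _)).1
  have e : ∑ j ∈ range n, (-1 : ℝ) ^ (2 * k + j) * dd b p (2 * k + j) =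
      ∑ j ∈ range n, (-1) ^ j * dd b p (2 * k + j) := by
    refine Finset.sum_congr rfl fun j _ => ?_
    rw [pow_add, pow_mul, neg_one_sq, one_pow, one_mul]
  rw [e]
  linarith

theorem s1 : 0.8108 ≤ ∑ j ∈ range 78, (-1) ^ j * dd 1 2 j := by
  refine le_trans ?_ (alt_ge zero_le_one le_rfl 2 3 72)
  unfold dd
  norm_num [Finset.sum_range_succ]

theorem s2 {b : ℝ} (hb : 0 ≤ b) (hb1 : b ≤ 1) : b - b ^ 2 / 4 ≤ ∑ j ∈ range 78, (-1) ^ j * dd b 2 j := by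
  refine le_trans (le_of_eq ?_) (alt_ge hb hb1 2 1 76)
  unfold dd
  norm_num [Finset.sum_range_succ]
  ring

theorem har : ∑ j ∈ range 78, 1 / ((j : ℝ) + 1) ≤ 4.95 := by
  norm_num [Finset.sum_range_succ]

/-- the tail -/
theorem tail (ψ : ℝ) (n : ℕ) :
    ∑ l ∈ range n, Real.cos ((l + 78 + 1 : ℕ) * ψ) / (((l + 78 : ℕ) : ℝ) + 1) ^ 2 ≤
      1 / 78 - 1 / ((n : ℝ) + 78) := by
  induction n with
  | zero => norm_num
  | succ n ih =>
    rw [Finset.sum_range_succ]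
    have h1 : Real.cos ((n + 78 + 1 : ℕ) * ψ) / (((n + 78 : ℕ) : ℝ) + 1) ^ 2 ≤
        1 / ((n : ℝ) + 78) - 1 / (((n + 1 : ℕ) : ℝ) + 78) := by
      have e1 : 1 / ((n : ℝ) + 78) - 1 / (((n + 1 : ℕ) : ℝ) + 78) =
          1 / (((n : ℝ) + 78) * ((n : ℝ) + 79)) := by
        push_cast
        field_simp
        ring
      rw [e1]
      calc Real.cos ((n + 78 + 1 : ℕ) * ψ) / (((n + 78 : ℕ) : ℝ) + 1) ^ 2
          ≤ 1 / (((n + 78 : ℕ) : ℝ) + 1) ^ 2 :=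
            div_le_div_of_nonneg_right (Real.cos_le_one _) (by positivity)
        _ ≤ 1 / (((n : ℝ) + 78) * ((n : ℝ) + 79)) := by
            apply one_div_le_one_div_of_le (by positivity)
            push_cast
            nlinarith
    linarith

/-- the cosine sum -/
theorem cosum (h3 : B03) (ψ : ℝ) :
    -(Real.pi ^ 2 / 12) - 1 / 78 ≤ ∑ l ∈ range 78, Real.cos ((l + 1 : ℕ) * ψ) / ((l : ℝ) + 1) ^ 2 := by
  obtain ⟨hs, hl⟩ := h3.2 ψ
  have h1 := hs.sum_add_tsum_nat_add 78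
  have h2 : ∑' l : ℕ, Real.cos ((l + 78 + 1 : ℕ) * ψ) / (((l + 78 : ℕ) : ℝ) + 1) ^ 2 ≤ 1 / 78 := by
    refine Summable.tsum_le_of_sum_range_le ((summable_nat_add_iff 78).2 hs) fun n => ?_
    have h4 := tail ψ n
    have h5 : 0 ≤ 1 / ((n : ℝ) + 78) := by positivity
    linarith
  linarith

theorem cf_abs {a : ℝ} (ha : 2 ≤ a) (ψ : ℝ) (j : ℕ) : |cf a ψ j| ≤ 3.5 := by
  unfold cf
  rw [abs_mul, abs_pow, abs_neg, abs_one, one_pow, one_mul]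
  have h1 := Real.neg_one_le_cos ((j + 1 : ℕ) * ψ)
  have h2 := Real.cos_le_one ((j + 1 : ℕ) * ψ)
  have h3 : 0 ≤ a⁻¹ ^ (j + 1) := by positivity
  have h4 : a⁻¹ ≤ 1 / 2 := by
    rw [inv_le_comm₀ (by linarith) (by norm_num)]
    norm_num
    exact ha
  have h5 : a⁻¹ ^ (j + 1) ≤ 1 / 2 := by
    calc a⁻¹ ^ (j + 1) ≤ a⁻¹ ^ 1 :=
          pow_le_pow_of_le_one (by positivity) (by linarith) (by omega)
      _ = a⁻¹ := pow_one _
      _ ≤ 1 / 2 := h4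
  rw [abs_le]
  constructor <;> linarith

theorem cos_shift (ψ : ℝ) (j : ℕ) :
    (-1) ^ j * Real.cos ((j + 1 : ℕ) * ψ) = - Real.cos ((j + 1 : ℕ) * (ψ + Real.pi)) := by
  have h : ((j + 1 : ℕ) : ℝ) * (ψ + Real.pi) = (j + 1 : ℕ) * ψ + (j + 1 : ℕ) * Real.pi := by ring
  rw [h, Real.cos_add_nat_mul_pi, pow_succ]
  ring

/-- one term -/
theorem term_le {a : ℝ} (ha : 2 ≤ a) {t θ ψ D : ℝ} (ht : 0 < t) (hD : D = t / (t ^ 2 + θ ^ 2)) (j : ℕ)
    (hk : |kr ((j + 1 : ℕ) * t) ((j + 1 : ℕ) * θ) - 2 * ((j + 1 : ℕ) * t) /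
      (((j + 1 : ℕ) * t) ^ 2 + ((j + 1 : ℕ) * θ) ^ 2)| ≤ (j + 1 : ℕ) * t) :
    cf a ψ j / (j + 1) * ((kr ((j + 1 : ℕ) * t) ((j + 1 : ℕ) * θ) - 1) / 2) ≤
      D * (-2 * (Real.cos ((j + 1 : ℕ) * (ψ + Real.pi)) / ((j : ℝ) + 1) ^ 2) - (-1) ^ j * dd 1 2 j -
        (-1) ^ j * dd a⁻¹ 2 j) + 3.5 * t / 2 + (1 / ((j : ℝ) + 1) + 1 / 2 * ((-1) ^ j * dd 1 1 j) +
        1 / 2 * ((-1) ^ j * dd a⁻¹ 1 j)) := by
  obtain ⟨M, hM⟩ : ∃ M : ℝ, M = (j : ℝ) + 1 := ⟨_, rfl⟩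
  have hMc : ((j + 1 : ℕ) : ℝ) = M := by rw [hM]; push_cast; ring
  have hM0 : 0 < M := by rw [hM]; positivity
  obtain ⟨k, hk'⟩ : ∃ k, k = kr ((j + 1 : ℕ) * t) ((j + 1 : ℕ) * θ) := ⟨_, rfl⟩
  rw [← hk'] at hk ⊢
  have hq : 0 < t ^ 2 + θ ^ 2 := by positivity
  have e1 : 2 * ((j + 1 : ℕ) * t) / (((j + 1 : ℕ) * t) ^ 2 + ((j + 1 : ℕ) * θ) ^ 2) = 2 * D / M := by
    rw [hMc, hD]
    field_simp
  rw [e1, hMc] at hk
  obtain ⟨c, hc⟩ : ∃ c, c = cf a ψ j := ⟨_, rfl⟩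
  have hca := cf_abs ha ψ j
  rw [← hc] at hca ⊢
  have e2 : c / ((j : ℝ) + 1) * ((k - 1) / 2) =
      D * (c / M ^ 2) + c * (k - 2 * D / M) / (2 * M) - c / (2 * M) := by
    rw [← hM]
    field_simp
    ring
  have h1 : c * (k - 2 * D / M) / (2 * M) ≤ 3.5 * t / 2 := by
    have h2 : c * (k - 2 * D / M) ≤ 3.5 * (M * t) := by
      calc c * (k - 2 * D / M) ≤ |c * (k - 2 * D / M)| := le_abs_self _
        _ = |c| * |k - 2 * D / M| := abs_mul _ _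
        _ ≤ 3.5 * (M * t) := mul_le_mul hca hk (abs_nonneg _) (by norm_num)
    rw [div_le_iff₀ (by positivity)]
    linarith
  have e3 : c / M ^ 2 = -2 * (Real.cos ((j + 1 : ℕ) * (ψ + Real.pi)) / ((j : ℝ) + 1) ^ 2) -
      (-1) ^ j * dd 1 2 j - (-1) ^ j * dd a⁻¹ 2 j := by
    have e4 := cos_shift ψ j
    rw [hc]
    unfold cf dd
    rw [← hM, one_pow]
    have e5 : (-1 : ℝ) ^ j * (2 * Real.cos ((j + 1 : ℕ) * ψ) - 1 - a⁻¹ ^ (j + 1)) =
        -2 * Real.cos ((j + 1 : ℕ) * (ψ + Real.pi)) - (-1) ^ j - (-1) ^ j * a⁻¹ ^ (j + 1) := by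
      linear_combination 2 * e4
    rw [e5]
    ring
  have h3 : -(c / (2 * M)) ≤ 1 / ((j : ℝ) + 1) + 1 / 2 * ((-1) ^ j * dd 1 1 j) +
        1 / 2 * ((-1) ^ j * dd a⁻¹ 1 j) := by
    rw [hc]
    unfold cf dd
    rw [← hM, one_pow, pow_one]
    have h4 : -((-1 : ℝ) ^ j * Real.cos ((j + 1 : ℕ) * ψ)) ≤ 1 := by
      rw [cos_shift, neg_neg]
      exact Real.cos_le_one _
    have e6 : -((-1 : ℝ) ^ j * (2 * Real.cos ((j + 1 : ℕ) * ψ) - 1 - a⁻¹ ^ (j + 1)) / (2 * M)) =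
        -((-1 : ℝ) ^ j * Real.cos ((j + 1 : ℕ) * ψ)) / M + 1 / 2 * ((-1) ^ j * (1 / M)) +
          1 / 2 * ((-1) ^ j * (a⁻¹ ^ (j + 1) / M)) := by
      field_simp
      ring
    rw [e6]
    have h5 : -((-1 : ℝ) ^ j * Real.cos ((j + 1 : ℕ) * ψ)) / M ≤ 1 / M :=
      div_le_div_of_nonneg_right h4 hM0.le
    linarith
  rw [e2, e3]
  linarith

theorem t_C01m (h1 : B01) (h3 : B03) : C01m := by
  intro a K θ t hA ht htθ hθ
  have ha2 : 2 ≤ a := by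
    rcases hA with ⟨h, _⟩ | ⟨h, _⟩ <;> rw [h] <;> norm_num
  have hl2 := Real.log_two_lt_d9
  have hl2' := Real.log_two_gt_d9
  have hK0 : (0 : ℝ) < K := by
    rcases hA with ⟨_, h⟩ | ⟨_, h⟩ <;> exact_mod_cast (by omega : 0 < K)
  have hlog0 : 0 < Real.log a := Real.log_pos (by linarith)
  have ht0 : 0 < t := by rw [ht]; positivity
  have ht1 : t ≤ 0.0035 := by
    rw [ht, div_le_iff₀ hK0]
    rcases hA with ⟨h, hK⟩ | ⟨h, hK⟩
    · have hK' : (340 : ℝ) ≤ K := by exact_mod_cast hK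
      rw [h]
      linarith
    · have hK' : (400 : ℝ) ≤ K := by exact_mod_cast hK
      rw [h]
      have h4 : Real.log 3 ≤ Real.log 4 := Real.log_le_log (by norm_num) (by norm_num)
      have h5 : Real.log 4 = 2 * Real.log 2 := by
        have : (4 : ℝ) = 2 ^ 2 := by norm_num
        rw [this, Real.log_pow]
        norm_num
      linarith
  have hθ0 : 0 < θ := by linarith
  obtain ⟨D, hD⟩ : ∃ D, D = t / (t ^ 2 + θ ^ 2) := ⟨_, rfl⟩
  have hq : 0 < t ^ 2 + θ ^ 2 := by positivity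
  have hD0 : 0 < D := by rw [hD]; positivity
  have hD1 : D ≤ 1 / (2 * t) := by
    rw [hD, div_le_div_iff₀ hq (by positivity)]
    nlinarith
  have hpi := Real.pi_gt_d2
  have hb0 : 0 ≤ a⁻¹ := by positivity
  have hb1 : a⁻¹ ≤ 1 / 2 := by
    rw [inv_le_comm₀ (by linarith) (by norm_num)]
    norm_num
    exact ha2
  have hsum : ∑ j ∈ range 78, cf a (K * θ) j / (j + 1) *
      ((kr ((j + 1 : ℕ) * t) ((j + 1 : ℕ) * θ) - 1) / 2) ≤
      ∑ j ∈ range 78, (D * (-2 * (Real.cos ((j + 1 : ℕ) * (K * θ + Real.pi)) / ((j : ℝ) + 1) ^ 2) -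
        (-1) ^ j * dd 1 2 j - (-1) ^ j * dd a⁻¹ 2 j) + 3.5 * t / 2 + (1 / ((j : ℝ) + 1) +
        1 / 2 * ((-1) ^ j * dd 1 1 j) + 1 / 2 * ((-1) ^ j * dd a⁻¹ 1 j))) := by
    refine Finset.sum_le_sum fun j hj => term_le ha2 ht0 hD j ?_
    have hj' : j + 1 ≤ 78 := by
      have := Finset.mem_range.1 hj
      omega
    have hjr : ((j + 1 : ℕ) : ℝ) ≤ 78 := by exact_mod_cast hj'
    have hj0 : (0 : ℝ) < ((j + 1 : ℕ) : ℝ) := by positivity
    apply h1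
    · positivity
    · nlinarith
    · rw [abs_of_nonneg (by positivity)]
      nlinarith
  refine hsum.trans ?_
  have e : ∑ j ∈ range 78, (D * (-2 * (Real.cos ((j + 1 : ℕ) * (K * θ + Real.pi)) / ((j : ℝ) + 1) ^ 2) -
        (-1) ^ j * dd 1 2 j - (-1) ^ j * dd a⁻¹ 2 j) + 3.5 * t / 2 + (1 / ((j : ℝ) + 1) +
        1 / 2 * ((-1) ^ j * dd 1 1 j) + 1 / 2 * ((-1) ^ j * dd a⁻¹ 1 j))) =
      D * (-2 * (∑ j ∈ range 78, Real.cos ((j + 1 : ℕ) * (K * θ + Real.pi)) / ((j : ℝ) + 1) ^ 2) -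
        (∑ j ∈ range 78, (-1) ^ j * dd 1 2 j) - ∑ j ∈ range 78, (-1) ^ j * dd a⁻¹ 2 j) +
        78 * (3.5 * t / 2) + ((∑ j ∈ range 78, 1 / ((j : ℝ) + 1)) +
        1 / 2 * (∑ j ∈ range 78, (-1) ^ j * dd 1 1 j) + 1 / 2 * ∑ j ∈ range 78, (-1) ^ j * dd a⁻¹ 1 j) := by
    rw [Finset.sum_add_distrib, Finset.sum_add_distrib, ← Finset.mul_sum, Finset.sum_sub_distrib,
      Finset.sum_sub_distrib, ← Finset.mul_sum, Finset.sum_const, Finset.card_range, nsmul_eq_mul,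
      Finset.sum_add_distrib, Finset.sum_add_distrib, ← Finset.mul_sum, ← Finset.mul_sum]
    push_cast
    ring
  rw [e]
  have c1 := cosum h3 (K * θ + Real.pi)
  have c2 := s1
  have c3 := s2 hb0 (by linarith : a⁻¹ ≤ 1)
  have c4 := har
  have c5 := alt_le zero_le_one le_rfl 1 78
  have c6 := alt_le hb0 (by linarith : a⁻¹ ≤ 1) 1 78
  have hpi2 : Real.pi ^ 2 ≤ 9.8697 := by
    have h6 := Real.pi_lt_d4
    have h7 := Real.pi_pos
    nlinarith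
  obtain ⟨X, hX⟩ : ∃ X : ℝ, X = -2 * (∑ j ∈ range 78, Real.cos ((j + 1 : ℕ) * (K * θ + Real.pi)) /
      ((j : ℝ) + 1) ^ 2) - (∑ j ∈ range 78, (-1) ^ j * dd 1 2 j) -
      ∑ j ∈ range 78, (-1) ^ j * dd a⁻¹ 2 j := ⟨_, rfl⟩
  rw [← hX]
  have hX1 : X ≤ 0.8600 - (a⁻¹ - a⁻¹ ^ 2 / 4) := by
    rw [hX]
    linarith
  have hrest : 78 * (3.5 * t / 2) + ((∑ j ∈ range 78, 1 / ((j : ℝ) + 1)) +
        1 / 2 * (∑ j ∈ range 78, (-1) ^ j * dd 1 1 j) + 1 / 2 * ∑ j ∈ range 78, (-1) ^ j * dd a⁻¹ 1 j) ≤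
        6.5 := by
    norm_num at c4 ht1 ⊢
    linarith
  have hmain : D * X ≤ (if a = 2 then 0.25 else 0.30) / t := by
    have key : ∀ r : ℝ, 0 ≤ r → X ≤ 2 * r → D * X ≤ r / t := by
      intro r hr hXr
      calc D * X ≤ D * (2 * r) := mul_le_mul_of_nonneg_left hXr hD0.le
        _ ≤ 1 / (2 * t) * (2 * r) := mul_le_mul_of_nonneg_right hD1 (by positivity)
        _ = r / t := by field_simp
    rcases hA with ⟨h, _⟩ | ⟨h, _⟩
    · rw [if_pos h]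
      apply key _ (by norm_num)
      refine hX1.trans ?_
      rw [h]
      norm_num
    · rw [if_neg (by rw [h]; norm_num)]
      apply key _ (by norm_num)
      refine hX1.trans ?_
      rw [h]
      norm_num
  linarith

end Pool.Agent.N271.MI
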